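import Pool.Agent.BTR.ZC

/-!
# MP_3aaac3_al: the triviality problem for balanced presentations and the recognition of `ℤ` among
the presentations with one generator more than relators   (helper84)
-/

set_option autoImplicit false

namespace Pool.Agent.Results.MP_3aaac3_al.RecogniseZ

/-- The list `r` of words on `n` letters has exactly `n` members and presents the trivial group
(the predicate of Q1). -/
def BalTriv (n : ℕ) (r : List (List (Fin n × Bool))) : Prop :=
  r.length = n ∧
    Subsingleton (PresentedGroup {w : FreeGroup (Fin n) | ∃ l ∈ r, w = FreeGroup.mk l})

/-- The list `r` of words on `n + 1` letters has exactly `n` members and presents the infinite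
cyclic group. -/
def DefOneZ (n : ℕ) (r : List (List (Fin (n + 1) × Bool))) : Prop :=
  r.length = n ∧
    Nonempty (PresentedGroup {w : FreeGroup (Fin (n + 1)) | ∃ l ∈ r, w = FreeGroup.mk l} ≃*
      Multiplicative ℤ)

/-- The triviality problem for balanced presentations on `n` generators is many-one reducible to
the recognition of `ℤ` among the presentations with `n + 1` generators and `n` relators, which is
many-one reducible to the triviality problem for balanced presentations on `n + 3` generators. So
Q1 has a positive answer if and only if for every `n` there is an algorithm that recognises `ℤ`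
among the presentations with `n + 1` generators and `n` relators. -/
theorem result :
    (∀ n : ℕ, ManyOneReducible (BalTriv n) (DefOneZ n) ∧
      ManyOneReducible (DefOneZ n) (BalTriv (n + 3))) ∧
    ((∀ n : ℕ, 2 < n → ComputablePred (BalTriv n)) ↔ ∀ n : ℕ, ComputablePred (DefOneZ n)) :=
  ⟨fun n => ⟨Pool.Agent.BTR.tb_reduces n, Pool.Agent.BTR.zd_reduces n⟩, Pool.Agent.BTR.theoremB⟩

end Pool.Agent.Results.MP_3aaac3_al.RecogniseZ
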