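import Pool.Agent.BTR.CMPT

/-!
# MP_3aaac3_al: the triviality problem for balanced presentations on `n + 2` generators contains
the uniform word problem of the subpresentations of balanced presentations of the trivial group on
`n` generators   (helper84)
-/

set_option autoImplicit false

namespace Pool.Agent.Results.MP_3aaac3_al.WordProblemReduction

/-- There is a computable map `f` which sends a list `r` of `n` words on `n` letters, a number `k`
and a finite list `ws` of words on the same letters to a list of words on `n + 2` letters, such
that `f (r, k, ws)` is a balanced presentation of the trivial group if and only if `r` is one and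
all words of `ws` are consequences of the first `k` relators of `r`. -/
theorem result (n : ℕ) :
    ∃ f : List (List (Fin n × Bool)) × ℕ × List (List (Fin n × Bool)) →
        List (List (Fin (n + 2) × Bool)),
      Computable f ∧
      ∀ (r : List (List (Fin n × Bool))) (k : ℕ) (ws : List (List (Fin n × Bool))),
        ((f (r, k, ws)).length = n + 2 ∧
          Subsingleton (PresentedGroup
            {w : FreeGroup (Fin (n + 2)) | ∃ l ∈ f (r, k, ws), w = FreeGroup.mk l})) ↔
        ((r.length = n ∧
          Subsingleton (PresentedGroup {w : FreeGroup (Fin n) | ∃ l ∈ r, w = FreeGroup.mk l})) ∧
        ∀ w ∈ ws, FreeGroup.mk w ∈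
          Subgroup.normalClosure {x : FreeGroup (Fin n) | ∃ l ∈ r.take k, x = FreeGroup.mk l}) :=
  Pool.Agent.BTR.theoremA n

end Pool.Agent.Results.MP_3aaac3_al.WordProblemReduction
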